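import Pool.Agent.P.MP_2b2d3b_ag.FinalE

/-!
The Mestrano-Simpson conjecture on the components of the moduli space of stable rank two bundles
with `det = O(1)` and `c₂ = 11` on a very general sextic surface.
-/

namespace Pool.Agent.Results.MP_2b2d3b_ag.TwoComponents

open MvPolynomial AlgebraicGeometry Pool.Agent.P.MP_2b2d3b_ag

theorem result (F : Pol ℂ) (hF : F.IsHomogeneous 6)
    (hgen : AlgebraicIndependent ℚ fun m : {m : Fin 4 →₀ ℕ // m.degree = 6} => coeff m.1 F) :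
    Nonempty (ModuliSpace F) ∧
    ∀ (𝓜 : ModuliSpace F) (U : Set (Fin 4 → ℂ)),
      (∃ h : Pol ℂ, h ≠ 0 ∧ ∀ c, eval c h ≠ 0 → c ∈ U) →
      irreducibleComponents 𝓜.M = {closure 𝓜.F₁, closure (𝓜.F₂ U)} ∧
      topologicalKrullDim (closure (𝓜.F₂ U)) = 13 ∧
      (∃ η : 𝓜.M, IsGenericPoint η (closure (𝓜.F₂ U)) ∧
        ¬ IsReduced (𝓜.M.presheaf.stalk η)) ∧
      ∀ E : Family F ℂ, 𝓜.pt E ∈ closure (𝓜.F₂ U) → E.Obstructed :=
  ⟨moduli_exists F ⟨hF, hgen⟩, final F ⟨hF, hgen⟩⟩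

end Pool.Agent.Results.MP_2b2d3b_ag.TwoComponents
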